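import Pool.Agent.Helper9.TD.Typ

/-!
# Relative chamber systems

Definitions for Artin groups whose spherical triples of generators are even: relative coset
complexes `B ≤ P s ≤ P s ⊔ P t`, and the relative girth condition.
-/

set_option autoImplicit false

namespace Pool.Agent.Helper9.EV

open Pool.Agent.Helper3.FJ Pool.Agent.Helper9.TD

/-! ### Coxeter matrices -/

section

variable {S : Type} (M : CoxeterMatrix S)

/-- Three generators which generate a finite Coxeter group. -/
def Sp3 (s t u : S) : Prop :=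
  M s t ≠ 0 ∧ M t u ≠ 0 ∧ M s u ≠ 0 ∧ (1 : ℚ) < 1 / M s t + 1 / M t u + 1 / M s u

/-- Each generator in a spherical triple has only even labels (or `∞`). -/
def ETri : Prop :=
  ∀ s t u, s ≠ t → t ≠ u → s ≠ u → Sp3 M s t u → ∀ v, v ≠ s → Even (M s v)

/-- Lengths for infinite labels. -/
def AscInf : Prop :=
  ∀ w s t, s ≠ t → M s t = 0 → ¬ Ds M w s → ¬ Ds M w t →
    ∀ k, len M (w * ap M s t k) = len M w + k

/-- (wG): in a component of the types `s, t` the chambers over `z` and `z * t` (where `z` is
reduced) are in one panel of type `t`. -/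
def WG {C : Type} (A : S → C → C → Prop) (w : C → M.Group) : Prop :=
  ∀ s t c d z, s ≠ t → Relation.ReflTransGen (fun a b => A s a b ∨ A t a b) c d →
    ¬ Ds M z s → ¬ Ds M z t → (w c = z ∨ w c = z * M.simple t) →
    (w d = z ∨ w d = z * M.simple t) → A t c d

end

/-! ### Groups with subgroups -/

section

variable {S : Type} {G : Type} [Group G]

/-- Alternating products of `n` elements of `P \ B` and `Q \ B`, the first one in `P \ B`. -/
inductive Alt (B : Subgroup G) : Subgroup G → Subgroup G → ℕ → G → Prop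
  | nil (P Q : Subgroup G) : Alt B P Q 0 1
  | cons {P Q : Subgroup G} {n : ℕ} {g h : G} :
      g ∈ P → g ∉ B → Alt B Q P n h → Alt B P Q (n + 1) (g * h)

/-- Relative girth: alternating products of fewer than `2 m` elements are not in `B`. -/
def RG (B P Q : Subgroup G) (m : ℕ) : Prop :=
  ∀ n g, 0 < n → (Alt B P Q n g ∨ Alt B Q P n g) → g ∈ B → 2 * m ≤ n

/-- The subgroup of a set of types. -/
def PJ (B : Subgroup G) (P : S → Subgroup G) (J : Finset S) : Subgroup G := B ⊔ ⨆ s ∈ J, P s

/-- The types of the vertices. -/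
def SJ (M : CoxeterMatrix S) (J : Finset S) : Prop := J.card ≤ 2 ∧ ∀ s ∈ J, ∀ t ∈ J, M s t ≠ 0

/-- The universal property: `G` is the colimit of the subgroups `PJ B P J`: compatible
homomorphisms `φ J` extend to `G`. -/
def Amal (M : CoxeterMatrix S) (B : Subgroup G) (P : S → Subgroup G) : Prop :=
  ∀ (K : Type) [Group K] (φ : Finset S → G → K),
    (∀ J, SJ M J → ∀ x ∈ PJ B P J, ∀ y ∈ PJ B P J, φ J (x * y) = φ J x * φ J y) →
    (∀ J J', J ⊆ J' → SJ M J' → ∀ x ∈ PJ B P J, φ J' x = φ J x) →
    ∃ Φ : G →* K, ∀ J, SJ M J → ∀ x ∈ PJ B P J, Φ x = φ J x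

/-- Relative systems of subgroups. -/
structure RS (M : CoxeterMatrix S) (B : Subgroup G) (P : S → Subgroup G) : Prop where
  le : ∀ s, B ≤ P s
  gen : B ⊔ ⨆ s, P s = ⊤
  amal : Amal M B P
  rg : ∀ s t, s ≠ t → M s t ≠ 0 → RG B (P s) (P t) (M s t)

end

/-! ### Actions on typed complexes -/

section

variable {S V : Type}

/-- Actions on typed complexes which preserve the types. -/
structure ActsI (G : Type) [Group G] [MulAction G V] (X : Cpx V) (τ : V → Finset S) : Prop where
  acts : X.Acts G
  inv : ∀ (g : G) v, τ (g • v) = τ v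

end

end Pool.Agent.Helper9.EV
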