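import Pool.Agent.Helper9.EV.Sch

/-!
# The induction step for the relative girth
-/

set_option autoImplicit false

namespace Pool.Agent.Helper9.EV

open Relation Pool.Agent.Helper9.TD

section

variable {S : Type} {G : Type} [Group G] {M : CoxeterMatrix S} {B : Subgroup G}
  {P : S → Subgroup G}

/-- Alternating products as sequences. -/
theorem alt_chn (F : S → Subgroup G) {B' : Subgroup G} (n : ℕ) : ∀ (x y : S) (g : G),
    Alt B' (F x) (F y) n g → ∀ g₀ : G, ∃ γ : ℕ → G, γ 0 = g₀ ∧ γ n = g₀ * g ∧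
      ∀ k < n, (γ k)⁻¹ * γ (k + 1) ∈ F (tp x y k) ∧ (γ k)⁻¹ * γ (k + 1) ∉ B' := by
  induction n with
  | zero =>
    intro x y g h g₀
    generalize hP : F x = P' at h
    generalize hQ : F y = Q' at h
    cases h
    exact ⟨fun _ => g₀, rfl, (mul_one g₀).symm, fun k hk => by omega⟩
  | succ n ih =>
    intro x y g h g₀
    obtain ⟨g₁, g₂, rfl, h1, h2, h3⟩ : ∃ g₁ g₂, g = g₁ * g₂ ∧ g₁ ∈ F x ∧ g₁ ∉ B' ∧
        Alt B' (F y) (F x) n g₂ := by
      generalize hP : F x = P' at h
      generalize hQ : F y = Q' at h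
      cases h with
      | cons h1 h2 h3 => exact ⟨_, _, rfl, h1, h2, h3⟩
    obtain ⟨γ, h4, h5, h6⟩ := ih y x g₂ h3 (g₀ * g₁)
    refine ⟨fun k => Nat.casesOn k g₀ γ, rfl, ?_, fun k hk => ?_⟩
    · change γ n = _
      rw [h5, mul_assoc]
    · cases k with
      | zero =>
        change g₀⁻¹ * γ 0 ∈ F x ∧ g₀⁻¹ * γ 0 ∉ B'
        rw [h4, inv_mul_cancel_left]
        exact ⟨h1, h2⟩
      | succ k => exact h6 k (by omega)

/-- Cosets of the group generated by two of the subgroups. -/
theorem rtg_of_mem (hle : ∀ s, B ≤ P s) {t x : S} {p : G} (hp : p ∈ P t ⊔ P x) (g : G) :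
    ReflTransGen (fun a b => AG B P x a b ∨ AG B P t a b) (g : G ⧸ B) ((g * p : G) : G ⧸ B) := by
  let T : Subgroup G :=
    { carrier := {p | ∀ g : G, ReflTransGen (fun a b => AG B P x a b ∨ AG B P t a b)
        (g : G ⧸ B) ((g * p : G) : G ⧸ B)}
      one_mem' := fun g => by rw [mul_one]
      mul_mem' := fun {a b} ha hb g => by
        rw [← mul_assoc]
        exact (ha g).trans (hb (g * a))
      inv_mem' := fun {a} ha g => by
        have h := ha (g * a⁻¹)
        rw [inv_mul_cancel_right] at h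
        have : ∀ {c d : G ⧸ B}, ReflTransGen (fun a b => AG B P x a b ∨ AG B P t a b) c d →
            ReflTransGen (fun a b => AG B P x a b ∨ AG B P t a b) d c := by
          intro c d h1
          induction h1 with
          | refl => exact ReflTransGen.refl
          | tail _ h2 ih =>
            exact ih.head (h2.imp (ag_equiv hle x).symm (ag_equiv hle t).symm)
        exact this h }
  have h1 : P t ⊔ P x ≤ T := by
    refine sup_le (fun p hp g => ReflTransGen.single (Or.inr ?_))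
      (fun p hp g => ReflTransGen.single (Or.inl ?_)) <;>
    · rw [ag_mk hle, inv_mul_cancel_left]
      exact hp
  exact h1 hp g

variable (h : RS M B P) (hM : TwoDim M) (hI : AscInf M) {i j t : S} (hij : i ≠ j) (hit : i ≠ t)
  (hjt : j ≠ t) (h0 : M i j ≠ 0)

include h hM hI hij hit hjt h0 in
/-- Closed chains of even length. -/
theorem chn_even {γ : ℕ → G} {m : ℕ} (h1 : 1 ≤ m)
    (hγ : ∀ k < 2 * m, (γ k)⁻¹ * γ (k + 1) ∈ P t ⊔ P (tp i j k) ∧ (γ k)⁻¹ * γ (k + 1) ∉ P t)
    (hc : (γ 0)⁻¹ * γ (2 * m) ∈ P t) : M i j ≤ m := by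
  by_contra hlt
  push Not at hlt
  have hle := h.le
  obtain ⟨lam, ph, hH⟩ := Pool.Agent.Helper63.TD.exists_htF hM
  have hC := Pool.Agent.Helper63.TD.coxF hM
  obtain ⟨w, hw, hW, hw0⟩ := exists_w' hC hI (fun s => ag_equiv hle s) (gir_rs h) (sch_rs h)
    ((γ 0 : G) : G ⧸ B)
  refine no_chain hC hI hH hw hW hij hit hjt h0 (fun s => ag_equiv hle s)
    (g := fun k => ((γ k : G) : G ⧸ B)) h1 (by omega) (fun k hk => ?_) hw0 ?_
  · obtain ⟨h2, h3⟩ := hγ k hk
    refine ⟨?_, fun h4 => ?_⟩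
    · have h4 := rtg_of_mem hle h2 (γ k)
      rwa [mul_inv_cancel_left] at h4
    · rw [ag_mk hle] at h4
      exact h3 h4
  · rw [ag_mk hle]
    exact hc

include h hM hI hij hit hjt h0 in
/-- Closed chains. -/
theorem chn_bound (n : ℕ) : ∀ (x y : S), ((x = i ∧ y = j) ∨ (x = j ∧ y = i)) →
    ∀ γ : ℕ → G, 0 < n →
    (∀ k < n, (γ k)⁻¹ * γ (k + 1) ∈ P t ⊔ P (tp x y k) ∧ (γ k)⁻¹ * γ (k + 1) ∉ P t) →
    (γ 0)⁻¹ * γ n ∈ P t → 2 * M i j ≤ n := by
  induction n using Nat.strong_induction_on with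
  | _ n ih =>
    intro x y hxy γ hn hγ hc
    have hM' : M j i = M i j := M.symmetric _ _
    by_cases he : Even n
    · obtain ⟨m, rfl⟩ := he
      rw [← two_mul] at hγ hc ⊢
      refine Nat.mul_le_mul_left 2 ?_
      rcases hxy with ⟨rfl, rfl⟩ | ⟨rfl, rfl⟩
      · exact chn_even h hM hI hij hit hjt h0 (by omega) hγ hc
      · rw [← hM']
        exact chn_even h hM hI hij.symm hjt hit (by rw [hM']; exact h0) (by omega) hγ hc
    · by_cases hn1 : n = 1
      · subst hn1
        exact ((hγ 0 one_pos).2 hc).elim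
      obtain ⟨m, rfl⟩ : ∃ m, n = m + 1 + 1 + 1 := by
        refine ⟨n - 3, ?_⟩
        have : n ≠ 2 := by
          rintro rfl
          exact he ⟨1, rfl⟩
        omega
      have hyx : (y = i ∧ x = j) ∨ (y = j ∧ x = i) := by
        rcases hxy with ⟨rfl, rfl⟩ | ⟨rfl, rfl⟩
        · exact Or.inr ⟨rfl, rfl⟩
        · exact Or.inl ⟨rfl, rfl⟩
      have he2 : Even (m + 1 + 1) := by
        by_contra h1
        exact he (by rw [Nat.even_add_one]; exact h1)
      have hx : tp x y (m + 1 + 1) = x := tp_even he2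
      -- the element between the second and the last but one
      have h1 : (γ (m + 1 + 1))⁻¹ * γ 1 ∈ P t ⊔ P x := by
        have h2 := (hγ (m + 1 + 1) (by omega)).1
        rw [hx] at h2
        have h3 := (hγ 0 (by omega)).1
        have h4 : (γ (m + 1 + 1 + 1))⁻¹ * γ 0 ∈ P t ⊔ P x := by
          have := (P t).inv_mem hc
          rw [mul_inv_rev, inv_inv] at this
          exact (le_sup_left : P t ≤ P t ⊔ P x) this
        have h5 : (γ (m + 1 + 1))⁻¹ * γ 1 = (γ (m + 1 + 1))⁻¹ * γ (m + 1 + 1 + 1) *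
            ((γ (m + 1 + 1 + 1))⁻¹ * γ 0) * ((γ 0)⁻¹ * γ (0 + 1)) := by group
        rw [h5]
        exact mul_mem (mul_mem h2 h4) h3
      by_cases h2 : (γ (m + 1 + 1))⁻¹ * γ 1 ∈ P t
      · have h3 := ih (m + 1) (by omega) y x hyx (fun k => γ (k + 1)) (by omega)
          (fun k hk => hγ (k + 1) (by omega)) (by
            have := (P t).inv_mem h2
            rwa [mul_inv_rev, inv_inv] at this)
        omega
      · have h3 := ih (m + 1 + 1) (by omega) y x hyx
          (fun k => if k = m + 1 + 1 then γ 1 else γ (k + 1)) (by omega) (fun k hk => ?_) ?_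
        · omega
        · by_cases hk1 : k = m + 1
          · subst hk1
            simp only [if_neg (show m + 1 ≠ m + 1 + 1 by omega), if_true]
            rw [← tp_succ, hx]
            exact ⟨h1, h2⟩
          · simp only [if_neg (show k ≠ m + 1 + 1 by omega),
              if_neg (show k + 1 ≠ m + 1 + 1 by omega)]
            exact hγ (k + 1) (by omega)
        · simp only [if_neg (show (0 : ℕ) ≠ m + 1 + 1 by omega), if_true]
          rw [inv_mul_cancel]
          exact (P t).one_mem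

include h hM hI hij hit hjt h0 in
/-- **The induction step for the relative girth.** -/
theorem rg_step : RG (P t) (P t ⊔ P i) (P t ⊔ P j) (M i j) := by
  intro n g hn hg hgt
  rcases hg with hg | hg
  · obtain ⟨γ, h1, h2, h3⟩ := alt_chn (fun s => P t ⊔ P s) n i j g hg 1
    refine chn_bound h hM hI hij hit hjt h0 n i j (Or.inl ⟨rfl, rfl⟩) γ hn h3 ?_
    rw [h1, h2, inv_one, one_mul, one_mul]
    exact hgt
  · obtain ⟨γ, h1, h2, h3⟩ := alt_chn (fun s => P t ⊔ P s) n j i g hg 1
    refine chn_bound h hM hI hij hit hjt h0 n j i (Or.inr ⟨rfl, rfl⟩) γ hn h3 ?_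
    rw [h1, h2, inv_one, one_mul, one_mul]
    exact hgt

end

end Pool.Agent.Helper9.EV
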