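import Pool.Agent.Helper9.EV.Wg
import Pool.Agent.Helper3.FE.Ht

/-!
# Relative girth
-/

set_option autoImplicit false

namespace Pool.Agent.Helper9.EV

open Real Relation Pool.Agent.Helper9.TD

/-! ### The sine lemma -/

section sine

variable {S : Type} {M : CoxeterMatrix S} {lam : M.Group → S → ℝ} {ph : M.Group → ℝ}
  (hH : HtF M lam ph)

include hH

theorem lam_self (w : M.Group) (s : S) : lam (w * M.simple s) s = - lam w s := by
  rw [hH.lam_mul, bf, M.diagonal]
  simp
  ring

theorem lam_step (w : M.Group) (s t : S) :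
    lam (w * M.simple s) t = lam w t + 2 * cos (π / M s t) * lam w s := by
  rw [hH.lam_mul, bf]
  ring

omit hH in
theorem cos_nn {s t : S} (hst : s ≠ t) : 0 ≤ cos (π / M s t) := by
  by_cases h0 : M s t = 0
  · rw [h0]
    simp
  · exact Pool.Agent.Helper3.FE.cos_th (Pool.Agent.Helper3.FE.two_le hst h0)

theorem lam_mono {s t : S} (hst : s ≠ t) {w : M.Group} (hs : ¬ Ds M w s) :
    lam w t ≤ lam (w * M.simple s) t := by
  rw [lam_step hH]
  have h1 := (hH.pos w s).2 hs
  have h2 := cos_nn (M := M) hst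
  nlinarith [mul_nonneg h2 h1.le]

/-- The values at the end of a syllable. -/
def S1 (lam : M.Group → S → ℝ) (x y : S) (k : ℕ) (p : M.Group) : Prop :=
  0 < sin ((k + 1) * (π / M x y)) * lam p x + sin ((k + 2) * (π / M x y)) * lam p y ∧
    0 < lam p x

/-- The values at the beginning of a syllable. -/
def S0 (lam : M.Group → S → ℝ) (x y : S) (k : ℕ) (p : M.Group) : Prop :=
  0 < sin (k * (π / M x y)) * lam p y + sin ((k + 1) * (π / M x y)) * lam p x

omit hH in
theorem sin_nn {m k : ℕ} (hm : 2 ≤ m) (hk : k ≤ m) : 0 ≤ sin (k * (π / m)) := by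
  refine sin_nonneg_of_nonneg_of_le_pi ?_ (Pool.Agent.Helper3.FE.mul_th_le hm hk)
  have := Pool.Agent.Helper3.FE.th_pos hm
  positivity

omit hH in
theorem sin_pp {m k : ℕ} (hm : 2 ≤ m) (h0 : 0 < k) (hk : k < m) : 0 < sin (k * (π / m)) := by
  have h1 := Pool.Agent.Helper3.FE.th_pos hm
  have h2 : (0 : ℝ) < k := by exact_mod_cast h0
  refine sin_pos_of_pos_of_lt_pi (mul_pos h2 h1) ?_
  have h3 : (k : ℝ) < m := by exact_mod_cast hk
  calc (k : ℝ) * (π / m) < m * (π / m) := mul_lt_mul_of_pos_right h3 h1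
    _ = π := Pool.Agent.Helper3.FE.th_mul hm

omit hH in
theorem sin_id (k : ℕ) (θ : ℝ) :
    2 * cos θ * sin ((k + 1) * θ) - sin ((k + 2) * θ) = sin (k * θ) := by
  have e1 : ((k : ℝ) + 2) * θ = (k + 1) * θ + θ := by ring
  have e2 : (k : ℝ) * θ = (k + 1) * θ - θ := by ring
  rw [e1, e2, sin_add, sin_sub]
  ring

variable {x y t : S} (hxy : x ≠ y) (hxt : x ≠ t) (hyt : y ≠ t) (h0 : M x y ≠ 0) {k : ℕ}
  (hk : k + 2 ≤ M x y)

include hxt hyt hxy h0 hk

theorem S0.stT {p : M.Group} (h : S0 lam x y k p) (ht : ¬ Ds M p t) :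
    S0 lam x y k (p * M.simple t) := by
  have hm := Pool.Agent.Helper3.FE.two_le hxy h0
  have h1 := lam_mono hH hxt.symm ht
  have h2 := lam_mono hH hyt.symm ht
  have h3 := sin_nn hm (k := k) (by omega)
  have h4 := sin_nn hm (k := k + 1) (by omega)
  push_cast at h4
  unfold S0 at h ⊢
  nlinarith [mul_le_mul_of_nonneg_left h1 h4, mul_le_mul_of_nonneg_left h2 h3]

theorem S1.stT {p : M.Group} (h : S1 lam x y k p) (ht : ¬ Ds M p t) :
    S1 lam x y k (p * M.simple t) := by
  have hm := Pool.Agent.Helper3.FE.two_le hxy h0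
  have h1 := lam_mono hH hxt.symm ht
  have h2 := lam_mono hH hyt.symm ht
  have h3 := sin_nn hm (k := k + 2) hk
  have h4 := sin_nn hm (k := k + 1) (by omega)
  push_cast at h3 h4
  refine ⟨?_, h.2.trans_le h1⟩
  have h5 := h.1
  nlinarith [mul_le_mul_of_nonneg_left h1 h4, mul_le_mul_of_nonneg_left h2 h3]

omit hxt hyt in
theorem S0.stY {p : M.Group} (h : S0 lam x y k p) (hy : ¬ Ds M p y) :
    S1 lam x y k (p * M.simple y) := by
  have hm := Pool.Agent.Helper3.FE.two_le hxy h0
  have h3 := sin_nn hm (k := k + 2) hk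
  have h4 := sin_pp hm (k := k + 1) (by omega) (by omega)
  push_cast at h3 h4
  have h5 := (hH.pos p y).2 hy
  have h6 := sin_id k (π / M x y)
  have e1 : lam (p * M.simple y) x = lam p x + 2 * cos (π / M x y) * lam p y := by
    rw [lam_step hH, M.symmetric y x]
  have e2 := lam_self hH p y
  have key : sin ((k + 1) * (π / M x y)) * lam (p * M.simple y) x +
      sin ((k + 2) * (π / M x y)) * lam (p * M.simple y) y =
      sin (k * (π / M x y)) * lam p y + sin ((k + 1) * (π / M x y)) * lam p x := by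
    rw [e1, e2, ← h6]
    ring
  have h7 : 0 < sin ((k + 1) * (π / M x y)) * lam (p * M.simple y) x +
      sin ((k + 2) * (π / M x y)) * lam (p * M.simple y) y := by
    rw [key]
    exact h
  refine ⟨h7, ?_⟩
  rw [e2] at h7
  by_contra hcon
  push Not at hcon
  nlinarith [mul_nonneg h3 h5.le, mul_nonneg h4.le (neg_nonneg.2 hcon)]

omit hxt hyt in
theorem S1.stY {p : M.Group} (h : S1 lam x y k p) (hy : ¬ Ds M p y) :
    S1 lam x y k (p * M.simple y) := by
  have hm := Pool.Agent.Helper3.FE.two_le hxy h0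
  refine S0.stY hH hxy h0 hk ?_ hy
  have h3 := sin_nn hm (k := k) (by omega)
  have h4 := sin_pp hm (k := k + 1) (by omega) (by omega)
  push_cast at h3 h4
  have h5 := (hH.pos p y).2 hy
  unfold S0
  nlinarith [mul_nonneg h3 h5.le, mul_pos h4 h.2]

theorem S1.word {a b : S} (hab : (a = t ∧ b = y) ∨ (a = y ∧ b = t)) {p : M.Group}
    (h : S1 lam x y k p) : ∀ n, (∀ r < n, ¬ Ds M (p * ap M a b r) (tp a b r)) →
      S1 lam x y k (p * ap M a b n) := by
  intro n
  induction n with
  | zero =>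
    intro _
    rw [ap, mul_one]
    exact h
  | succ n ih =>
    intro hr
    have h1 := ih fun r hr' => hr r (by omega)
    have h2 := hr n (by omega)
    rw [ap_succ', ← mul_assoc]
    have h3 : tp a b n = t ∨ tp a b n = y := by
      rcases tp_cases a b n with ⟨e, -⟩ | ⟨e, -⟩ <;> rw [e] <;>
        rcases hab with ⟨rfl, rfl⟩ | ⟨rfl, rfl⟩ <;> simp
    rcases h3 with h3 | h3
    · rw [h3] at h2 ⊢
      exact h1.stT hH hxy hxt hyt h0 hk h2
    · rw [h3] at h2 ⊢
      exact h1.stY hH hxy h0 hk h2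

/-- The values after a syllable whose last letter is `y`. -/
theorem S0.word {a b : S} (hab : (a = t ∧ b = y) ∨ (a = y ∧ b = t)) {p : M.Group}
    (h : S0 lam x y k p) {n : ℕ} (hl : tp a b n = y)
    (hr : ∀ r < n + 1, ¬ Ds M (p * ap M a b r) (tp a b r)) :
    S1 lam x y k (p * ap M a b (n + 1)) := by
  have key : ∀ {p : M.Group} {n : ℕ}, S0 lam x y k p →
      (∀ r < n + 1, ¬ Ds M (p * ap M y t r) (tp y t r)) →
      S1 lam x y k (p * ap M y t (n + 1)) := by
    intro p n h hr
    have h1 := hr 0 (by omega)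
    rw [ap, mul_one] at h1
    rw [ap, ← mul_assoc]
    refine S1.word hH hxy hxt hyt h0 hk (Or.inl ⟨rfl, rfl⟩) (h.stY hH hxy h0 hk h1) n fun r hr' => ?_
    have h2 := hr (r + 1) (by omega)
    rw [ap, ← mul_assoc] at h2
    exact h2
  rcases hab with ⟨rfl, rfl⟩ | ⟨rfl, rfl⟩
  · cases n with
    | zero => exact (hyt hl.symm).elim
    | succ n =>
      have h1 := hr 0 (by omega)
      rw [ap, mul_one] at h1
      rw [ap, ← mul_assoc]
      refine key (h.stT hH hxy hxt hyt h0 hk h1) fun r hr' => ?_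
      have h2 := hr (r + 1) (by omega)
      rw [ap, ← mul_assoc] at h2
      exact h2
  · exact key h hr

end sine

/-! ### Cosets of two types -/

section coset

variable {S : Type} {M : CoxeterMatrix S}

/-- The elements `z * (t y t ...)`. -/
def InR (M : CoxeterMatrix S) (t y : S) (z q : M.Group) : Prop :=
  ∃ a b n, ((a = t ∧ b = y) ∨ (a = y ∧ b = t)) ∧ (M t y = 0 ∨ n ≤ M t y) ∧ q = z * ap M a b n

theorem InR.refl (t y : S) (z : M.Group) : InR M t y z z :=
  ⟨t, y, 0, Or.inl ⟨rfl, rfl⟩, by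
    by_cases h : M t y = 0
    · exact Or.inl h
    · exact Or.inr (Nat.zero_le _), by rw [ap, mul_one]⟩

theorem InR.mul {t y : S} (hty : t ≠ y) {z q : M.Group} (h : InR M t y z q) {s : S}
    (hs : s = t ∨ s = y) : InR M t y z (q * M.simple s) := by
  obtain ⟨a, b, n, hab, hn, rfl⟩ := h
  have hab' : (b = t ∧ a = y) ∨ (b = y ∧ a = t) := by
    rcases hab with ⟨rfl, rfl⟩ | ⟨rfl, rfl⟩
    · exact Or.inr ⟨rfl, rfl⟩
    · exact Or.inl ⟨rfl, rfl⟩
  have hM : M a b = M t y := by
    rcases hab with ⟨rfl, rfl⟩ | ⟨rfl, rfl⟩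
    · rfl
    · exact M.symmetric _ _
  have hsn : s = tp a b n ∨ s = tp b a n := by
    rcases tp_cases a b n with ⟨e1, e2⟩ | ⟨e1, e2⟩ <;> rw [e1, e2] <;>
      rcases hab with ⟨rfl, rfl⟩ | ⟨rfl, rfl⟩ <;> tauto
  rcases hsn with rfl | rfl
  · -- the next letter
    by_cases h1 : M t y = 0 ∨ n + 1 ≤ M t y
    · exact ⟨a, b, n + 1, hab, h1, by rw [ap_succ', mul_assoc]⟩
    · push Not at h1
      have h2 : n = M a b := by
        rw [hM]
        rcases hn with hn | hn
        · exact (h1.1 hn).elim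
        · omega
      obtain ⟨m, hm⟩ : ∃ m, M a b = m + 1 := ⟨M a b - 1, by
        have := h1.1
        omega⟩
      refine ⟨b, a, m, hab', Or.inr (by omega), ?_⟩
      rw [h2, braid a b, hm, ap_succ', tp_succ, ← mul_assoc, mul_mul_self]
  · -- the last letter
    cases n with
    | zero =>
      refine ⟨b, a, 1, hab', ?_, ?_⟩
      · by_cases h1 : M t y = 0
        · exact Or.inl h1
        · exact Or.inr (by omega)
      · simp [ap, tp]
    | succ n =>
      refine ⟨a, b, n, hab, ?_, ?_⟩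
      · rcases hn with hn | hn
        · exact Or.inl hn
        · exact Or.inr (by omega)
      · rw [ap_succ', tp_succ, ← mul_assoc, mul_mul_self]

theorem InR.len (hC : CoxF M) (hI : AscInf M) {t y : S} (hty : t ≠ y) {z : M.Group}
    (ht : ¬ Ds M z t) (hy : ¬ Ds M z y) {a b : S} {n : ℕ}
    (hab : (a = t ∧ b = y) ∨ (a = y ∧ b = t)) (hn : M t y = 0 ∨ n ≤ M t y) :
    len M (z * ap M a b n) = len M z + n := by
  have hM : M a b = M t y := by
    rcases hab with ⟨rfl, rfl⟩ | ⟨rfl, rfl⟩
    · rfl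
    · exact M.symmetric _ _
  have hne : a ≠ b := by
    rcases hab with ⟨rfl, rfl⟩ | ⟨rfl, rfl⟩
    · exact hty
    · exact hty.symm
  have ha : ¬ Ds M z a := by rcases hab with ⟨rfl, rfl⟩ | ⟨rfl, rfl⟩ <;> assumption
  have hb : ¬ Ds M z b := by rcases hab with ⟨rfl, rfl⟩ | ⟨rfl, rfl⟩ <;> assumption
  rcases hn with hn | hn
  · exact hI z a b hne (by rw [hM]; exact hn) ha hb n
  · exact hC.asc z a b hne ha hb n (by rw [hM]; exact hn)

end coset

/-! ### Chains of panels -/

section chain

variable {S C : Type} {M : CoxeterMatrix S} {A : S → C → C → Prop} {w : C → M.Group}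

/-- Two different panels of type `t` in one residue of the types `t, x`. -/
def Stp (A : S → C → C → Prop) (t x : S) (c d : C) : Prop :=
  ReflTransGen (fun a b => A x a b ∨ A t a b) c d ∧ ¬ A t c d

theorem Stp.symm (hA : ∀ s, Equivalence (A s)) {t x : S} {c d : C} (h : Stp A t x c d) :
    Stp A t x d c := by
  refine ⟨?_, fun h1 => h.2 ((hA t).symm h1)⟩
  have h1 := h.1
  clear h
  induction h1 with
  | refl => exact ReflTransGen.refl
  | tail _ h2 ih => exact ih.head (h2.imp (hA x).symm (hA t).symm)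

theorem inR_of {t y : S} (hty : t ≠ y) (hw : WL M A w) {z : M.Group} {c d : C}
    (h : ReflTransGen (fun a b => A y a b ∨ A t a b) c d) (hc : InR M t y z (w c)) :
    InR M t y z (w d) := by
  induction h with
  | refl => exact hc
  | @tail d e _ h2 ih =>
    by_cases hde : d = e
    · rwa [← hde]
    · rcases h2 with h2 | h2
      · rcases hw _ _ _ h2 hde with h3 | ⟨h3, -⟩
        · rw [h3]
          exact ih.mul hty (Or.inr rfl)
        · rwa [h3]
      · rcases hw _ _ _ h2 hde with h3 | ⟨h3, -⟩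
        · rw [h3]
          exact ih.mul hty (Or.inl rfl)
        · rwa [h3]

variable (hC : CoxF M) (hI : AscInf M) {lam : M.Group → S → ℝ} {ph : M.Group → ℝ}
  (hH : HtF M lam ph) (hw : WL M A w) (hW : WG M A w)

include hC hI hw hW in
/-- One step: the reduced element of the next panel. -/
theorem exists_syl {t y : S} (hty : t ≠ y) {c d : C} (h : Stp A t y c d) {z : M.Group}
    (ht : ¬ Ds M z t) (hy : ¬ Ds M z y) (hc : w c = z ∨ w c = z * M.simple t) :
    ∃ a b n, ((a = t ∧ b = y) ∨ (a = y ∧ b = t)) ∧ tp a b n = y ∧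
      ¬ Ds M (z * ap M a b (n + 1)) t ∧ Ds M (z * ap M a b (n + 1)) y ∧
      (∀ r < n + 1, ¬ Ds M (z * ap M a b r) (tp a b r)) ∧
      (w d = z * ap M a b (n + 1) ∨ w d = z * ap M a b (n + 1) * M.simple t) := by
  have h1 : InR M t y z (w c) := by
    rcases hc with hc | hc
    · rw [hc]
      exact InR.refl t y z
    · rw [hc]
      exact (InR.refl t y z).mul hty (Or.inl rfl)
  have h2 := inR_of hty hw h.1 h1
  obtain ⟨z', h3, h4, h5⟩ : ∃ z', InR M t y z z' ∧ ¬ Ds M z' t ∧
      (w d = z' ∨ w d = z' * M.simple t) := by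
    by_cases hd : Ds M (w d) t
    · refine ⟨w d * M.simple t, h2.mul hty (Or.inl rfl), ?_, Or.inr (mul_mul_self _ _).symm⟩
      rw [not_ds, mul_mul_self]
      exact (ds_iff.1 hd).symm
    · exact ⟨w d, h2, hd, Or.inl rfl⟩
  obtain ⟨a, b, n, hab, hn, rfl⟩ := h3
  cases n with
  | zero =>
    exfalso
    rw [ap, mul_one] at h5
    refine h.2 (hW y t c d z hty.symm h.1 hy ht hc h5)
  | succ n =>
    have hlen : ∀ r ≤ n + 1, len M (z * ap M a b r) = len M z + r := fun r hr =>
      InR.len hC hI hty ht hy hab (hn.imp id fun h => by omega)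
    have hasc : ∀ r < n + 1, ¬ Ds M (z * ap M a b r) (tp a b r) := by
      intro r hr
      rw [not_ds, mul_assoc, ← ap_succ', hlen _ (by omega), hlen _ (by omega)]
      ring
    have hds : Ds M (z * ap M a b (n + 1)) (tp a b n) := by
      have := ds_mul (hasc n (by omega))
      rwa [mul_assoc, ← ap_succ'] at this
    have hl : tp a b n = y := by
      have h6 : tp a b n = t ∨ tp a b n = y := by
        rcases tp_cases a b n with ⟨e, -⟩ | ⟨e, -⟩ <;> rw [e] <;>
          rcases hab with ⟨rfl, rfl⟩ | ⟨rfl, rfl⟩ <;> simp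
      rcases h6 with h6 | h6
      · exfalso
        rw [h6] at hds
        exact h4 hds
      · exact h6
    refine ⟨a, b, n, hab, hl, h4, ?_, hasc, h5⟩
    rw [hl] at hds
    exact hds

variable {i j t : S} (hij : i ≠ j) (hit : i ≠ t) (hjt : j ≠ t) (h0 : M i j ≠ 0)

include hC hI hH hw hW hij hit hjt h0 in
/-- The elements of the panels of a chain. -/
theorem exists_chain {g : ℕ → C} {N : ℕ} (hg : ∀ k < N, Stp A t (tp i j k) (g k) (g (k + 1)))
    (hg0 : w (g 0) = 1 ∨ w (g 0) = M.simple t) : ∀ k, k ≤ N → k + 1 ≤ M i j →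
      ∃ z, ¬ Ds M z t ∧ (w (g k) = z ∨ w (g k) = z * M.simple t) ∧ ¬ Ds M z (tp i j k) ∧
        S0 lam (tp j i k) (tp i j k) k z ∧ (1 ≤ k → Ds M z (tp j i k)) := by
  have hm := Pool.Agent.Helper3.FE.two_le hij h0
  have hMt : ∀ k, M (tp j i k) (tp i j k) = M i j := by
    intro k
    rcases tp_cases i j k with ⟨e1, e2⟩ | ⟨e1, e2⟩
    · rw [e1, e2]
      exact M.symmetric _ _
    · rw [e1, e2]
  intro k
  induction k with
  | zero =>
    intro _ _
    refine ⟨1, not_ds_one _, ?_, not_ds_one _, ?_, fun h => by omega⟩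
    · rcases hg0 with h | h
      · exact Or.inl h
      · exact Or.inr (by rw [h, one_mul])
    · unfold S0
      rw [hMt]
      have h1 := sin_pp hm (k := 1) one_pos (by omega)
      have h2 := (hH.pos 1 (tp j i 0)).2 (not_ds_one _)
      simp only [Nat.cast_zero, zero_mul, sin_zero, zero_add, one_mul, Nat.cast_one] at h1 ⊢
      exact mul_pos h1 h2
  | succ k ih =>
    intro hk hk2
    obtain ⟨z, h1, h2, h3, h4, -⟩ := ih (by omega) (by omega)
    have hyt : tp i j k ≠ t := by
      rcases tp_cases i j k with ⟨e1, -⟩ | ⟨e1, -⟩ <;> rw [e1] <;> assumption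
    have hxt : tp j i k ≠ t := by
      rcases tp_cases i j k with ⟨-, e1⟩ | ⟨-, e1⟩ <;> rw [e1] <;> assumption
    obtain ⟨a, b, n, hab, hl, h5, h6, h7, h8⟩ :=
      exists_syl hC hI hw hW hyt.symm (hg k (by omega)) h1 h3 h2
    have h9 := h4.word hH (tp_ne hij.symm k) hxt hyt (by rw [hMt]; exact h0)
      (by rw [hMt]; omega) hab hl h7
    refine ⟨_, h5, h8, ?_, ?_, fun _ => h6⟩
    · rw [tp_succ]
      exact (hH.pos _ _).1 h9.2
    · rw [tp_succ, tp_succ]
      have h10 := h9.1
      unfold S0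
      rw [hMt] at h10
      have e : M (tp i j k) (tp j i k) = M i j := by rw [M.symmetric, hMt]
      rw [e]
      push_cast
      rw [show ((k : ℝ) + 1 + 1) = k + 2 by ring]
      exact h10

include hC hI hH hw hW hij hit hjt h0 in
/-- There are no short closed chains. -/
theorem no_chain (hA : ∀ s, Equivalence (A s)) {g : ℕ → C} {h : ℕ} (h1 : 1 ≤ h)
    (h2 : h + 1 ≤ M i j) (hg : ∀ k < 2 * h, Stp A t (tp i j k) (g k) (g (k + 1)))
    (hg0 : w (g 0) = 1) (hc : A t (g 0) (g (2 * h))) : False := by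
  have hMs : M j i = M i j := M.symmetric _ _
  obtain ⟨z, a1, a2, a3, -, a5⟩ := exists_chain hC hI hH hw hW hij hit hjt h0 hg (Or.inl hg0) h
    (by omega) h2
  have hgn : w (g (2 * h)) = 1 ∨ w (g (2 * h)) = M.simple t := by
    by_cases heq : g 0 = g (2 * h)
    · left
      rw [← heq, hg0]
    · rcases hw _ _ _ hc heq with h3 | ⟨h3, -⟩
      · right
        rw [h3, hg0, one_mul]
      · left
        rw [h3, hg0]
  obtain ⟨z', b1, b2, b3, -, b5⟩ := exists_chain hC hI hH hw hW hij.symm hjt hit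
    (by rw [hMs]; exact h0) (g := fun k => g (2 * h - k)) (N := 2 * h) (fun k hk => by
      have h3 := (hg (2 * h - (k + 1)) (by omega)).symm hA
      rw [show 2 * h - (k + 1) + 1 = 2 * h - k by omega] at h3
      have h4 : tp i j (2 * h - (k + 1)) = tp j i k := by
        by_cases he : Even k
        · rw [tp_even he, tp_odd]
          intro h5
          have : Even (2 * h - (k + 1) + (k + 1)) := by
            rw [Nat.sub_add_cancel (by omega)]
            exact even_two_mul h
          rw [Nat.even_add] at this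
          exact absurd he (by
            rw [← Nat.even_add_one]
            exact this.1 h5)
        · rw [tp_odd he, tp_even]
          have : Even (2 * h - (k + 1) + (k + 1)) := by
            rw [Nat.sub_add_cancel (by omega)]
            exact even_two_mul h
          rw [Nat.even_add] at this
          exact this.2 (by rw [Nat.even_add_one]; exact he)
      rw [h4] at h3
      exact h3) (by simpa using hgn) h (by omega) (by rw [hMs]; exact h2)
  simp only [show 2 * h - h = h by omega] at b2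
  have hz : z = z' := by
    rcases a2 with a2 | a2 <;> rcases b2 with b2 | b2
    · rw [← a2, b2]
    · exfalso
      refine a1 ?_
      rw [← a2, b2]
      exact ds_mul b1
    · exfalso
      refine b1 ?_
      rw [← b2, a2]
      exact ds_mul a1
    · exact mul_right_cancel (a2.symm.trans b2)
  subst hz
  exact b3 (a5 h1)

end chain

end Pool.Agent.Helper9.EV
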