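import Pool.Agent.Helper9.EV.RelGir
import Pool.Agent.Helper63.TD.Main

/-!
# The chamber system of a relative system of subgroups
-/

set_option autoImplicit false

namespace Pool.Agent.Helper9.EV

open Relation Pool.Agent.Helper9.TD

section

variable {S : Type} {G : Type} [Group G] {M : CoxeterMatrix S} {B : Subgroup G}
  {P : S → Subgroup G}

/-- The chamber system of the cosets of `B`. -/
def AG (B : Subgroup G) (P : S → Subgroup G) (s : S) (c d : G ⧸ B) : Prop :=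
  ∃ g h : G, (g : G ⧸ B) = c ∧ (h : G ⧸ B) = d ∧ g⁻¹ * h ∈ P s

theorem ag_mk (hle : ∀ s, B ≤ P s) (s : S) (g h : G) :
    AG B P s (g : G ⧸ B) (h : G ⧸ B) ↔ g⁻¹ * h ∈ P s := by
  constructor
  · rintro ⟨g', h', h1, h2, h3⟩
    have h4 := hle s (QuotientGroup.eq.1 h1)
    have h5 := hle s (QuotientGroup.eq.1 h2)
    have h6 : g⁻¹ * h = (g'⁻¹ * g)⁻¹ * (g'⁻¹ * h') * (h'⁻¹ * h) := by group
    rw [h6]
    exact (P s).mul_mem ((P s).mul_mem ((P s).inv_mem h4) h3) h5
  · exact fun h1 => ⟨g, h, rfl, rfl, h1⟩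

theorem ag_equiv (hle : ∀ s, B ≤ P s) (s : S) : Equivalence (AG B P s) := by
  refine ⟨fun c => ?_, fun {c d} h => ?_, fun {c d e} h h' => ?_⟩
  · obtain ⟨g, rfl⟩ := QuotientGroup.mk_surjective c
    rw [ag_mk hle, inv_mul_cancel]
    exact (P s).one_mem
  · obtain ⟨g, h, rfl, rfl, h1⟩ := h
    refine ⟨h, g, rfl, rfl, ?_⟩
    have := (P s).inv_mem h1
    rwa [mul_inv_rev, inv_inv] at this
  · obtain ⟨g, rfl⟩ := QuotientGroup.mk_surjective c
    obtain ⟨g', rfl⟩ := QuotientGroup.mk_surjective d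
    obtain ⟨g'', rfl⟩ := QuotientGroup.mk_surjective e
    rw [ag_mk hle] at h h' ⊢
    have : g⁻¹ * g'' = (g⁻¹ * g') * (g'⁻¹ * g'') := by group
    rw [this]
    exact (P s).mul_mem h h'

theorem al_alt (hle : ∀ s, B ≤ P s) {s t : S} {n : ℕ} {c d : G ⧸ B}
    (h : Al (AG B P) s t n c d) : ∀ g : G, (g : G ⧸ B) = c →
      ∃ x, Alt B (P s) (P t) n x ∧ ((g * x : G) : G ⧸ B) = d := by
  induction h with
  | nil s t c => exact fun g hg => ⟨1, Alt.nil _ _, by rw [mul_one]; exact hg⟩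
  | @cons s t n c d e h1 h2 _ ih =>
    intro g hg
    obtain ⟨g', rfl⟩ := QuotientGroup.mk_surjective d
    obtain ⟨x, h3, h4⟩ := ih g' rfl
    subst hg
    rw [ag_mk hle] at h1
    refine ⟨g⁻¹ * g' * x, Alt.cons h1 (fun h5 => h2 (QuotientGroup.eq.2 h5)) h3, ?_⟩
    rw [← h4]
    congr 1
    group

theorem gir_rs (h : RS M B P) : Gir M (AG B P) := by
  intro s t n c hst hn hc
  by_cases h0 : M s t = 0
  · rw [h0]
    exact Nat.zero_le _
  obtain ⟨g, rfl⟩ := QuotientGroup.mk_surjective c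
  obtain ⟨x, h1, h2⟩ := al_alt h.le hc g rfl
  refine h.rg s t hst h0 n x hn (Or.inl h1) ?_
  have h3 := QuotientGroup.eq.1 h2
  have h4 : (g * x)⁻¹ * g = x⁻¹ := by group
  rw [h4] at h3
  exact (B.inv_mem_iff).1 h3

theorem sj_empty : SJ M ∅ := ⟨by simp, by simp⟩

theorem sj_single (s : S) : SJ M {s} := by
  refine ⟨by simp, fun a ha b hb => ?_⟩
  rw [Finset.mem_singleton] at ha hb
  subst ha
  subst hb
  rw [M.diagonal]
  exact one_ne_zero

theorem le_pj (J : Finset S) : B ≤ PJ B P J := le_sup_left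

theorem p_le_pj {s : S} {J : Finset S} (hs : s ∈ J) : P s ≤ PJ B P J :=
  le_sup_of_le_right (le_iSup₂_of_le s hs le_rfl)

theorem pj_mono {J J' : Finset S} (h : J ⊆ J') : PJ B P J ≤ PJ B P J' :=
  sup_le (le_pj J') (iSup₂_le fun _ hs => p_le_pj (h hs))

theorem sj_mono {J J' : Finset S} (h : J ⊆ J') (h' : SJ M J') : SJ M J :=
  ⟨(Finset.card_le_card h).trans h'.1, fun s hs t ht => h'.2 s (h hs) t (h ht)⟩

/-- **Simple connectivity.** -/
theorem sch_rs (h : RS M B P) : SCh M (AG B P) := by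
  classical
  intro D π BD hE hadj hlift huniq htriv x₀ y₀ hxy hπ
  let Rr : Finset S → D → D → Prop := fun J => ReflTransGen fun a b => ∃ s ∈ J, BD s a b
  have Rsymm : ∀ {J x y}, Rr J x y → Rr J y x := by
    intro J x y h1
    induction h1 with
    | refl => exact ReflTransGen.refl
    | tail _ h2 ih =>
      obtain ⟨s, hs, h2⟩ := h2
      exact ih.head ⟨s, hs, (hE s).symm h2⟩
  have Rmono : ∀ {J J' x y}, J ⊆ J' → Rr J x y → Rr J' x y := by
    intro J J' x y hJ h1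
    induction h1 with
    | refl => exact ReflTransGen.refl
    | tail _ h2 ih =>
      obtain ⟨s, hs, h2⟩ := h2
      exact ih.tail ⟨s, hJ hs, h2⟩
  -- uniqueness
  have Runiq : ∀ {J x y}, SJ M J → Rr J x y → π x = π y → x = y := by
    intro J x y hJ h1 h2
    have h3 := hJ.1
    have hcases : J.card = 0 ∨ J.card = 1 ∨ J.card = 2 := by omega
    rcases hcases with h4 | h4 | h4
    · rw [Finset.card_eq_zero] at h4
      subst h4
      induction h1 with
      | refl => rfl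
      | tail _ h5 _ =>
        obtain ⟨s, hs, -⟩ := h5
        exact (Finset.notMem_empty _ hs).elim
    · obtain ⟨s, rfl⟩ := Finset.card_eq_one.1 h4
      refine huniq s x y ?_ h2
      clear h2
      induction h1 with
      | refl => exact (hE s).refl _
      | tail _ h5 ih =>
        obtain ⟨u, hu, h5⟩ := h5
        rw [Finset.mem_singleton] at hu
        subst hu
        exact (hE u).trans ih h5
    · obtain ⟨s, t, hst, rfl⟩ := Finset.card_eq_two.1 h4
      refine htriv s t hst (hJ.2 s (by simp) t (by simp)) x y ?_ h2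
      clear h2
      induction h1 with
      | refl => exact ReflTransGen.refl
      | tail _ h5 ih =>
        obtain ⟨u, hu, h5⟩ := h5
        rw [Finset.mem_insert, Finset.mem_singleton] at hu
        rcases hu with rfl | rfl
        · exact ih.tail (Or.inl h5)
        · exact ih.tail (Or.inr h5)
  -- existence
  have Rex : ∀ J (p : G), p ∈ PJ B P J → ∀ (g : G) (x : D), (g : G ⧸ B) = π x →
      ∃ y, Rr J x y ∧ ((g * p : G) : G ⧸ B) = π y := by
    intro J
    let good : G → Prop := fun p => ∀ (g : G) (x : D), (g : G ⧸ B) = π x →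
      ∃ y, Rr J x y ∧ ((g * p : G) : G ⧸ B) = π y
    have gmul : ∀ p q, good p → good q → good (p * q) := by
      intro p q hp hq g x hx
      obtain ⟨y, h1, h2⟩ := hp g x hx
      obtain ⟨z, h3, h4⟩ := hq (g * p) y h2
      exact ⟨z, h1.trans h3, by rw [← mul_assoc]; exact h4⟩
    have gone : good 1 := fun g x hx => ⟨x, ReflTransGen.refl, by rw [mul_one]; exact hx⟩
    let T : Subgroup G :=
      { carrier := {p | good p ∧ good p⁻¹}
        one_mem' := ⟨gone, by rw [inv_one]; exact gone⟩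
        mul_mem' := fun {a b} ha hb => ⟨gmul _ _ ha.1 hb.1, by
          rw [mul_inv_rev]
          exact gmul _ _ hb.2 ha.2⟩
        inv_mem' := fun {a} ha => ⟨ha.2, by rw [inv_inv]; exact ha.1⟩ }
    have hB : ∀ b ∈ B, good b := by
      intro b hb g x hx
      refine ⟨x, ReflTransGen.refl, ?_⟩
      rw [← hx]
      refine QuotientGroup.eq.2 ?_
      have : (g * b)⁻¹ * g = b⁻¹ := by group
      rw [this]
      exact B.inv_mem hb
    have hPs : ∀ s ∈ J, ∀ p ∈ P s, good p := by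
      intro s hs p hp g x hx
      obtain ⟨y, h1, h2⟩ := hlift s x ((g * p : G) : G ⧸ B) (by
        rw [← hx, ag_mk h.le]
        have : g⁻¹ * (g * p) = p := by group
        rw [this]
        exact hp)
      exact ⟨y, ReflTransGen.single ⟨s, hs, h2⟩, h1.symm⟩
    have hT : PJ B P J ≤ T := by
      refine sup_le (fun b hb => ⟨hB b hb, hB _ (B.inv_mem hb)⟩) (iSup₂_le fun s hs p hp => ?_)
      exact ⟨hPs s hs p hp, hPs s hs _ ((P s).inv_mem hp)⟩
    exact fun p hp => (hT hp).1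
  -- the monodromy
  let D' : Type := {q : G × D // (q.1 : G ⧸ B) = π q.2}
  have hf : ∀ J (p : G), p ∈ PJ B P J → ∀ q : D', ∃ q' : D', q'.1.1 = q.1.1 * p⁻¹ ∧
      Rr J q.1.2 q'.1.2 := by
    intro J p hp q
    obtain ⟨y, h1, h2⟩ := Rex J p⁻¹ ((PJ B P J).inv_mem hp) q.1.1 q.1.2 q.2
    exact ⟨⟨(q.1.1 * p⁻¹, y), h2⟩, rfl, h1⟩
  have hfu : ∀ J, SJ M J → ∀ (q q' q'' : D'), q'.1.1 = q''.1.1 → Rr J q.1.2 q'.1.2 →
      Rr J q.1.2 q''.1.2 → q' = q'' := by
    intro J hJ q q' q'' h1 h2 h3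
    refine Subtype.ext (Prod.ext h1 ?_)
    refine Runiq hJ ((Rsymm h2).trans h3) ?_
    rw [← q'.2, ← q''.2, h1]
  choose! f hf1 hf2 using hf
  have hinv : ∀ J, SJ M J → ∀ p ∈ PJ B P J, ∀ q, f J p⁻¹ (f J p q) = q := by
    intro J hJ p hp q
    have hp' := (PJ B P J).inv_mem hp
    refine hfu J hJ (f J p q) _ _ ?_ (hf2 J p⁻¹ hp' _) (Rsymm (hf2 J p hp q))
    rw [hf1 J p⁻¹ hp', hf1 J p hp]
    group
  let φ : Finset S → G → Equiv.Perm D' := fun J p =>
    if hJ : SJ M J ∧ p ∈ PJ B P J then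
      { toFun := f J p
        invFun := f J p⁻¹
        left_inv := hinv J hJ.1 p hJ.2
        right_inv := fun q => by
          have := hinv J hJ.1 p⁻¹ ((PJ B P J).inv_mem hJ.2) q
          rwa [inv_inv] at this }
    else 1
  have hφ : ∀ J, SJ M J → ∀ p ∈ PJ B P J, ∀ q, φ J p q = f J p q := by
    intro J hJ p hp q
    have : φ J p = _ := dif_pos ⟨hJ, hp⟩
    rw [this]
    rfl
  obtain ⟨Φ, hΦ⟩ := h.amal (Equiv.Perm D') φ (by
      intro J hJ p hp p' hp'
      refine Equiv.ext fun q => ?_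
      rw [Equiv.Perm.mul_apply, hφ J hJ p hp, hφ J hJ p' hp', hφ J hJ _ ((PJ B P J).mul_mem hp hp')]
      refine hfu J hJ q _ _ ?_ (hf2 J _ ((PJ B P J).mul_mem hp hp') q)
        ((hf2 J p' hp' q).trans (hf2 J p hp _))
      rw [hf1 J _ ((PJ B P J).mul_mem hp hp'), hf1 J p hp, hf1 J p' hp']
      group) (by
      intro J J' hJJ hJ' p hp
      refine Equiv.ext fun q => ?_
      have hp' := pj_mono (P := P) hJJ hp
      rw [hφ J' hJ' p hp', hφ J (sj_mono hJJ hJ') p hp]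
      refine hfu J' hJ' q _ _ ?_ (hf2 J' p hp' q) (Rmono hJJ (hf2 J p hp q))
      rw [hf1 J' p hp', hf1 J p hp])
  have hΦ1 : ∀ J, SJ M J → ∀ p ∈ PJ B P J, ∀ q q' : D', q'.1.1 = q.1.1 * p →
      Rr J q.1.2 q'.1.2 → Φ p⁻¹ q = q' := by
    intro J hJ p hp q q' h1 h2
    have hp' := (PJ B P J).inv_mem hp
    rw [hΦ J hJ p⁻¹ hp', hφ J hJ p⁻¹ hp']
    refine hfu J hJ q _ _ ?_ (hf2 J p⁻¹ hp' q) h2
    rw [hf1 J p⁻¹ hp', h1, inv_inv]
  obtain ⟨g, hg⟩ := QuotientGroup.mk_surjective (π x₀)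
  have key : ∀ y, ReflTransGen (fun a b => ∃ s, BD s a b) x₀ y →
      ∃ (u : G) (hu : ((g * u : G) : G ⧸ B) = π y), Φ u⁻¹ ⟨(g, x₀), hg⟩ = ⟨(g * u, y), hu⟩ := by
    intro y hy
    induction hy with
    | refl =>
      refine ⟨1, by rw [mul_one]; exact hg, ?_⟩
      rw [inv_one, map_one]
      refine Subtype.ext (Prod.ext ?_ rfl)
      exact (mul_one g).symm
    | @tail y z _ h2 ih =>
      obtain ⟨s, h2⟩ := h2
      obtain ⟨u, hu, h3⟩ := ih
      obtain ⟨k, hk⟩ := QuotientGroup.mk_surjective (π z)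
      have h4 := hadj s y z h2
      rw [← hu, ← hk, ag_mk h.le] at h4
      have e : g * (u * ((g * u)⁻¹ * k)) = k := by group
      refine ⟨u * ((g * u)⁻¹ * k), by rw [e]; exact hk, ?_⟩
      rw [mul_inv_rev, map_mul, Equiv.Perm.mul_apply, h3]
      refine hΦ1 {s} (sj_single s) _ (p_le_pj (Finset.mem_singleton_self s) h4) _ _ ?_
        (ReflTransGen.single ⟨s, Finset.mem_singleton_self s, h2⟩)
      change g * (u * ((g * u)⁻¹ * k)) = g * u * ((g * u)⁻¹ * k)
      group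
  obtain ⟨u, hu, h1⟩ := key y₀ hxy
  have hub : u ∈ B := by
    rw [← hπ, ← hg] at hu
    have h2 := QuotientGroup.eq.1 hu
    have h3 : (g * u)⁻¹ * g = u⁻¹ := by group
    rw [h3] at h2
    exact (B.inv_mem_iff).1 h2
  have h2 := hΦ1 ∅ sj_empty u (le_pj ∅ hub) ⟨(g, x₀), hg⟩ ⟨(g * u, x₀), by rw [hu, hπ]⟩ rfl
    ReflTransGen.refl
  rw [h2] at h1
  exact congrArg (fun q : D' => q.1.2) h1

end

end Pool.Agent.Helper9.EV
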