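import Pool.Agent.Helper9.TD.ExW
import Pool.Agent.Helper9.EV.Defs

/-!
# The projection to the Coxeter group: base point and uniqueness of gates
-/

set_option autoImplicit false

namespace Pool.Agent.Helper9.EV

open Relation Pool.Agent.Helper9.TD

/-! ### Infinite labels -/

section inf

variable {S C : Type} {A : S → C → C → Prop} {M : CoxeterMatrix S}

/-- The alternating galleries of a component. -/
theorem exists_al (hA : ∀ s, Equivalence (A s)) {s t : S} {c d : C}
    (h : ReflTransGen (fun a b => A s a b ∨ A t a b) c d) :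
    ∃ x y n, ((x = s ∧ y = t) ∨ (x = t ∧ y = s)) ∧ Al A x y n c d := by
  induction h with
  | refl => exact ⟨s, t, 0, Or.inl ⟨rfl, rfl⟩, Al.nil _ _ _⟩
  | @tail d e _ h2 ih =>
    obtain ⟨x, y, n, hxy, hal⟩ := ih
    by_cases hde : d = e
    · subst hde
      exact ⟨x, y, n, hxy, hal⟩
    have hswap : (y = s ∧ x = t) ∨ (y = t ∧ x = s) := by
      rcases hxy with ⟨rfl, rfl⟩ | ⟨rfl, rfl⟩
      · exact Or.inr ⟨rfl, rfl⟩
      · exact Or.inl ⟨rfl, rfl⟩
    obtain ⟨u, hu, h2⟩ : ∃ u, (u = x ∨ u = y) ∧ A u d e := by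
      rcases hxy with ⟨rfl, rfl⟩ | ⟨rfl, rfl⟩ <;> rcases h2 with h2 | h2
      · exact ⟨x, Or.inl rfl, h2⟩
      · exact ⟨y, Or.inr rfl, h2⟩
      · exact ⟨y, Or.inr rfl, h2⟩
      · exact ⟨x, Or.inl rfl, h2⟩
    cases n with
    | zero =>
      have := hal.zero
      subst this
      rcases hu with rfl | rfl
      · exact ⟨u, y, 1, hxy, Al.one h2 hde⟩
      · exact ⟨u, x, 1, hswap, Al.one h2 hde⟩
    | succ n =>
      by_cases hl : u = tp x y (n + 1)
      · exact ⟨x, y, n + 1 + 1, hxy, hal.snoc (by rw [← hl]; exact h2) hde⟩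
      · obtain ⟨d', h3, h4, h5⟩ := hal.last
        have hl' : u = tp x y n := by
          rw [tp_succ] at hl
          rcases tp_cases x y n with ⟨h6, h7⟩ | ⟨h6, h7⟩
          · rw [h6]
            rw [h7] at hl
            exact hu.resolve_right hl
          · rw [h6]
            rw [h7] at hl
            exact hu.resolve_left hl
        subst hl'
        by_cases hde' : d' = e
        · subst hde'
          exact ⟨x, y, n, hxy, h3⟩
        · exact ⟨x, y, n + 1, hxy, h3.snoc ((hA _).trans h4 h2) hde'⟩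

variable {w : C → M.Group} (hI : AscInf M) (hw : WL M A w)

include hI hw in
/-- Galleries from a reduced chamber. -/
theorem wl_al {x y : S} (hxy : x ≠ y) (h0 : M x y = 0) {z : M.Group} (hx : ¬ Ds M z x)
    (hy : ¬ Ds M z y) {n k : ℕ} {c d : C} (hc : w c = z * ap M (tp x y k) (tp y x k) k)
    (h : Al A x y n c d) : w d = z * ap M (tp x y k) (tp y x k) k * ap M x y n := by
  have key : ∀ j, len M (z * ap M (tp x y k) (tp y x k) k * ap M x y j) = len M z + (k + j) := by
    intro j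
    have h1 : ∀ (a b : S), a ≠ b → M a b = 0 → ¬ Ds M z a → ¬ Ds M z b → tp a b k = x →
        tp b a k = y → len M (z * ap M a b k * ap M x y j) = len M z + (k + j) := by
      intro a b hab hm ha hb e1 e2
      have h2 := hI z a b hab hm ha hb (k + j)
      have h3 : ∀ j, ap M a b (k + j) = ap M a b k * ap M (tp a b k) (tp b a k) j := by
        intro j
        induction j with
        | zero => simp [ap]
        | succ j ih => rw [← Nat.add_assoc, ap_succ', ap_succ', ih, mul_assoc, tp_add]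
      rw [h3, e1, e2, ← mul_assoc] at h2
      exact h2
    rcases tp_cases x y k with ⟨e1, e2⟩ | ⟨e1, e2⟩
    · rw [e1, e2]
      exact h1 x y hxy h0 hx hy e1 e2
    · rw [e1, e2]
      exact h1 y x hxy.symm (by rw [M.symmetric]; exact h0) hy hx e2 e1
  have hstep : ∀ j e, Al A x y j c e → w e = z * ap M (tp x y k) (tp y x k) k * ap M x y j := by
    intro j
    induction j with
    | zero =>
      intro e he
      rw [← he.zero, hc]
      simp [ap]
    | succ j ih =>
      intro e he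
      obtain ⟨e', h1, h2, h3⟩ := he.last
      have h4 := ih e' h1
      rcases hw _ _ _ h2 h3 with h5 | ⟨-, h5⟩
      · rw [h5, h4, ap_succ', mul_assoc]
      · exfalso
        rw [h4, ds_iff, mul_assoc, ← ap_succ', key, key] at h5
        omega
  exact hstep n d h

include hI hw in
/-- (wG) for infinite labels. -/
theorem wg_inf (hA : ∀ s, Equivalence (A s)) {s t : S} (hst : s ≠ t) (h0 : M s t = 0) {c d : C}
    {z : M.Group} (h : ReflTransGen (fun a b => A s a b ∨ A t a b) c d) (hs : ¬ Ds M z s)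
    (ht : ¬ Ds M z t) (hc : w c = z ∨ w c = z * M.simple t)
    (hd : w d = z ∨ w d = z * M.simple t) : A t c d := by
  have h0' : M t s = 0 := by rw [M.symmetric]; exact h0
  obtain ⟨x, y, n, hxy, hal⟩ := exists_al hA h
  -- galleries from `z * t` which begin with `s`
  have kt : ∀ n c, w c = z * M.simple t → Al A s t n c d → c = d := by
    intro n c hc hal
    have h1 := wl_al hI hw hst h0 hs ht (k := 1) (by
      change w c = z * ap M t s 1
      rw [hc]
      simp [ap]) hal
    have h2 : z * ap M (tp s t 1) (tp t s 1) 1 * ap M s t n = z * ap M t s (n + 1) := by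
      change z * ap M t s 1 * ap M s t n = _
      simp [ap, mul_assoc]
    rw [h2] at h1
    have h3 := hI z t s hst.symm h0' ht hs (n + 1)
    rw [← h1] at h3
    have h4 : n = 0 := by
      rcases hd with hd | hd
      · rw [hd] at h3
        omega
      · rw [hd, not_ds.1 ht] at h3
        omega
    subst h4
    exact hal.zero
  -- galleries from `z`
  have kz : ∀ x y n c, ((x = s ∧ y = t) ∨ (x = t ∧ y = s)) → w c = z → Al A x y n c d →
      n = 0 ∨ (n = 1 ∧ x = t) := by
    intro x y n c hxy hc hal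
    have hne : x ≠ y := by
      rcases hxy with ⟨rfl, rfl⟩ | ⟨rfl, rfl⟩
      · exact hst
      · exact hst.symm
    have hm : M x y = 0 := by
      rcases hxy with ⟨rfl, rfl⟩ | ⟨rfl, rfl⟩
      · exact h0
      · exact h0'
    have hx : ¬ Ds M z x := by rcases hxy with ⟨rfl, rfl⟩ | ⟨rfl, rfl⟩ <;> assumption
    have hy : ¬ Ds M z y := by rcases hxy with ⟨rfl, rfl⟩ | ⟨rfl, rfl⟩ <;> assumption
    have h1 := wl_al hI hw hne hm hx hy (k := 0) (by
      rw [hc]
      simp [ap]) hal
    rw [show z * ap M (tp x y 0) (tp y x 0) 0 * ap M x y n = z * ap M x y n by simp [ap]] at h1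
    have h3 := hI z x y hne hm hx hy n
    rw [← h1] at h3
    rcases hd with hd | hd
    · left
      rw [hd] at h3
      omega
    · right
      rw [hd, not_ds.1 ht] at h3
      have h4 : n = 1 := by omega
      subst h4
      refine ⟨rfl, ?_⟩
      rcases hxy with ⟨rfl, rfl⟩ | ⟨rfl, rfl⟩
      · exfalso
        rw [hd] at h1
        have h5 : M.simple y = M.simple x := by
          have := mul_left_cancel h1
          rwa [show ap M x y 1 = M.simple x by simp [ap]] at this
        have h6 := hI z x y hst h0 hs ht 2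
        rw [show ap M x y 2 = M.simple x * M.simple y by simp [ap], h5, simple_mul_self,
          mul_one] at h6
        omega
      · rfl
  have hrefl : ∀ c, A t c c := (hA t).refl
  rcases hc with hc | hc
  · rcases kz x y n c hxy hc hal with rfl | ⟨rfl, rfl⟩
    · rw [hal.zero]
      exact hrefl _
    · obtain ⟨e, h1, -, h3⟩ := hal.first
      rwa [h3.zero] at h1
  · rcases hxy with ⟨rfl, rfl⟩ | ⟨rfl, rfl⟩
    · rw [kt n c hc hal]
      exact hrefl _
    · cases n with
      | zero =>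
        rw [hal.zero]
        exact hrefl _
      | succ n =>
        obtain ⟨e, h1, h2, h3⟩ := hal.first
        have h4 : w e = z ∨ w e = z * M.simple x := by
          rcases hw _ _ _ h1 h2 with h5 | ⟨h5, -⟩
          · left
            rw [h5, hc, mul_mul_self]
          · right
            rw [h5, hc]
        rcases h4 with h4 | h4
        · rcases kz y x n e (Or.inl ⟨rfl, rfl⟩) h4 h3 with rfl | ⟨rfl, h5⟩
          · rwa [h3.zero] at h1
          · exact (hst h5).elim
        · rw [kt n e h4 h3] at h1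
          exact h1

end inf

/-! ### Finite labels -/

section

variable {S C₀ C : Type} {A₀ : S → C₀ → C₀ → Prop} {A : S → C → C → Prop} {M : CoxeterMatrix S}
  {ι : C₀ → C} {v₀ : C₀}

variable (hC : CoxF M) (hA : ∀ s, Equivalence (A s)) (hG : Gir M A) (hP : Swp M A)

include hC hA hG hP

/-- Common gates in a component of two types. -/
theorem exists_gate {s t : S} (hst : s ≠ t) (hm : M s t ≠ 0)
    {x y : DD A M ι v₀} (h : ReflTransGen (fun a b => BD s a b ∨ BD t a b) x y) :
    ∀ p q : Dt A M ι v₀, cD p = x → cD q = y →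
      ∃ g, G2 A M (ι v₀) s t p.1.1 g ∧ G2 A M (ι v₀) s t q.1.1 g := by
  induction h with
  | refl =>
    intro p q hp hq
    obtain ⟨g, hg⟩ := G2.exists hC hP hst hm p.2.1
    have h1 : (dst A M ι v₀).r p q := Quotient.exact (s := dst A M ι v₀) (hp.trans hq.symm)
    exact ⟨g, hg, hg.left h1.1⟩
  | @tail y z h1 h2 ih =>
    intro p r hp hr
    obtain ⟨q, hq⟩ := cD_surj y
    obtain ⟨g, h3, h4⟩ := ih p q hp hq
    subst hq
    subst hr
    have h5 : ∃ u, (u = s ∨ u = t) ∧ BD u (cD q) (cD r) := by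
      rcases h2 with h2 | h2
      · exact ⟨s, Or.inl rfl, h2⟩
      · exact ⟨t, Or.inr rfl, h2⟩
    obtain ⟨u, hu, k, h6, h7⟩ := h5
    obtain ⟨g', h8⟩ := G2.exists hC hP hst hm (h6.gd q.2.1)
    have h9 := G2.of_G1 hC hst hm hu q.2.1 h6 h8
    have h10 := G2.of_G1 hC hst hm hu r.2.1 h7 h8
    exact ⟨g, h3, h10.right (G2.unique hC hA hG hP hst hm q.2.1 h9 h4)⟩

/-- Chambers over `z` and `z * t`. -/
theorem bd_of_wD {s t : S} (hst : s ≠ t) (hm : M s t ≠ 0) {x y : DD A M ι v₀}
    (h : ReflTransGen (fun a b => BD s a b ∨ BD t a b) x y) {z : M.Group} (hs : ¬ Ds M z s)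
    (ht : ¬ Ds M z t) (hx : wD x = z ∨ wD x = z * M.simple t)
    (hy : wD y = z ∨ wD y = z * M.simple t) : BD t x y := by
  obtain ⟨p, rfl⟩ := cD_surj x
  obtain ⟨q, rfl⟩ := cD_surj y
  obtain ⟨g, h1, h2⟩ := exists_gate hC hA hG hP hst hm h p q rfl rfl
  have key : ∀ r : Dt A M ι v₀, (wt M r.1.1 = z ∨ wt M r.1.1 = z * M.simple t) →
      G2 A M (ι v₀) s t r.1.1 g → G1 A M (ι v₀) t r.1.1 g := by
    intro r hr hg
    obtain ⟨k, hk, hk2⟩ : ∃ k, G1 A M (ι v₀) t r.1.1 k ∧ wt M k = z := by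
      rcases hr with hr | hr
      · exact ⟨r.1.1, ⟨by rw [hr]; exact ht, Or.inl ReflTransGen.refl⟩, hr⟩
      · obtain ⟨c, k, hE⟩ := exists_last hC hP r.2.1 (s := t) (by rw [hr]; exact ds_mul ht)
        have h3 : wt M k = z := by
          have h4 := (E.inv hE).2.1
          rw [hr] at h4
          exact (mul_right_cancel h4).symm
        exact ⟨k, ⟨by rw [h3]; exact ht, Or.inr ⟨c, hE⟩⟩, h3⟩
    have h3 : G2 A M (ι v₀) s t k k := ⟨by rw [hk2]; exact hs, by rw [hk2]; exact ht, s, t, 0, [],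
      Or.inl ⟨rfl, rfl⟩, Nat.zero_le _, Bk.nil _ _ _, ReflTransGen.refl⟩
    have h4 := G2.of_G1 hC hst hm (Or.inr rfl) r.2.1 hk h3
    exact hk.right (G2.unique hC hA hG hP hst hm r.2.1 h4 hg)
  exact ⟨g, key p hx h1, key q hy h2⟩

/-- The projection on the component of `v₀`. -/
theorem exists_loc' (hι : Function.Injective ι) (hιA : ∀ s c d, A s (ι c) (ι d) ↔ A₀ s c d)
    (hS : SCh M A₀) (v₀ : C₀) : ∃ w : C₀ → M.Group, w v₀ = 1 ∧ (∀ s c d,
      ReflTransGen (fun a b => ∃ s, A₀ s a b) v₀ c → A₀ s c d → c ≠ d →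
      w d = w c * M.simple s ∨ (w d = w c ∧ Ds M (w c) s)) ∧
      ∀ s t c d z, s ≠ t → M s t ≠ 0 → ReflTransGen (fun a b => ∃ s, A₀ s a b) v₀ c →
        ReflTransGen (fun a b => A₀ s a b ∨ A₀ t a b) c d → ¬ Ds M z s → ¬ Ds M z t →
        (w c = z ∨ w c = z * M.simple t) → (w d = z ∨ w d = z * M.simple t) → A₀ t c d := by
  classical
  have hE := BD_equiv (ι := ι) (v₀ := v₀) hC hA hG hP
  have hadj : ∀ s (x y : DD A M ι v₀), BD s x y → A₀ s (pr x) (pr y) := by
    intro s x y h
    obtain ⟨p, rfl⟩ := cD_surj x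
    obtain ⟨q, rfl⟩ := cD_surj y
    obtain ⟨k, h1, h2⟩ := h
    rw [← hιA, pr_cD, pr_cD, ← p.2.2, ← q.2.2]
    exact (hA s).trans (h1.adj hA p.2.1) ((hA s).symm (h2.adj hA q.2.1))
  have hlift : ∀ s (x : DD A M ι v₀) c, A₀ s (pr x) c → ∃ y, pr y = c ∧ BD s x y := by
    intro s x c h
    obtain ⟨p, rfl⟩ := cD_surj x
    obtain ⟨k, hk⟩ := G1.exists hC hP p.2.1 s
    have h1 := hk.adj hA p.2.1
    have h2 : A s (en (ι v₀) k) (ι c) := by
      refine (hA s).trans ((hA s).symm h1) ?_
      rw [p.2.2, hιA]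
      exact h
    by_cases h3 : en (ι v₀) k = ι c
    · refine ⟨cD ⟨(k, c), hk.gd p.2.1, h3⟩, rfl, k, hk, hk.1, Or.inl ReflTransGen.refl⟩
    · exact ⟨cD ⟨((s, ι c) :: k, c), (hk.gd p.2.1).cons h2 h3 hk.1, rfl⟩, rfl, k, hk, hk.1,
        Or.inr ⟨ι c, ReflTransGen.refl⟩⟩
  have huniq := hS (DD A M ι v₀) pr BD hE hadj hlift (by
      intro s x y h hxy
      obtain ⟨p, rfl⟩ := cD_surj x
      obtain ⟨q, rfl⟩ := cD_surj y
      obtain ⟨k, h1, h2⟩ := h
      rw [pr_cD, pr_cD] at hxy
      exact cD_eq (G1.inj p.2.1 q.2.1 h1 h2 (by rw [p.2.2, q.2.2, hxy])) hxy)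
    (fun s t hst hm x y h hxy => BD_res hC hA hG hst hm hP h hι hxy)
  obtain ⟨x₀, hx₀⟩ : ∃ x₀ : DD A M ι v₀, x₀ = cD ⟨([], v₀), gd_nil, rfl⟩ := ⟨_, rfl⟩
  have hex : ∀ c, ReflTransGen (fun a b => ∃ s, A₀ s a b) v₀ c →
      ∃ x : DD A M ι v₀, ReflTransGen (fun a b => ∃ s, BD s a b) x₀ x ∧ pr x = c := by
    intro c h
    induction h with
    | refl => exact ⟨x₀, ReflTransGen.refl, by rw [hx₀]; rfl⟩
    | tail _ h2 ih =>
      obtain ⟨x, h3, rfl⟩ := ih
      obtain ⟨s, h2⟩ := h2
      obtain ⟨y, h4, h5⟩ := hlift s x _ h2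
      exact ⟨y, h3.tail ⟨s, h5⟩, h4⟩
  have hsym : ∀ {x y : DD A M ι v₀}, ReflTransGen (fun a b => ∃ s, BD s a b) x y →
      ReflTransGen (fun a b => ∃ s, BD s a b) y x := by
    intro x y h
    induction h with
    | refl => exact ReflTransGen.refl
    | tail _ h2 ih =>
      obtain ⟨s, h2⟩ := h2
      exact ih.head ⟨s, (hE s).symm h2⟩
  let w : C₀ → M.Group := fun c =>
    if h : ∃ x : DD A M ι v₀, ReflTransGen (fun a b => ∃ s, BD s a b) x₀ x ∧ pr x = c then
      wD h.choose else 1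
  have hw : ∀ x : DD A M ι v₀, ReflTransGen (fun a b => ∃ s, BD s a b) x₀ x →
      w (pr x) = wD x := by
    intro x hx
    have h : ∃ y : DD A M ι v₀, ReflTransGen (fun a b => ∃ s, BD s a b) x₀ y ∧
        pr y = pr x := ⟨x, hx, rfl⟩
    have h1 : w (pr x) = wD h.choose := dif_pos h
    rw [h1, huniq h.choose x ((hsym h.choose_spec.1).trans hx) h.choose_spec.2]
  refine ⟨w, ?_, fun s c d hc hcd hne => ?_, ?_⟩
  · have h1 := hw x₀ ReflTransGen.refl
    rw [hx₀] at h1
    exact h1
  · obtain ⟨x, hx, rfl⟩ := hex c hc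
    obtain ⟨y, rfl, hxy⟩ := hlift s x d hcd
    rw [hw x hx, hw y (hx.tail ⟨s, hxy⟩)]
    obtain ⟨p, rfl⟩ := cD_surj x
    obtain ⟨q, rfl⟩ := cD_surj y
    obtain ⟨k, h1, h2⟩ := hxy
    rw [wD_cD, wD_cD]
    rcases h1.2 with h3 | ⟨e, h3⟩ <;> rcases h2.2 with h4 | ⟨f, h4⟩
    · exfalso
      apply hne
      rw [pr_cD, pr_cD]
      apply hι
      rw [← p.2.2, ← q.2.2, (E.inv h3).2.2.1, (E.inv h4).2.2.1]
    · left
      rw [(E.inv h3).2.1, (E.inv h4).2.1]
      rfl
    · left
      rw [(E.inv h3).2.1, (E.inv h4).2.1]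
      exact (mul_mul_self _ _).symm
    · right
      rw [(E.inv h3).2.1, (E.inv h4).2.1]
      exact ⟨rfl, ds_mul h1.1⟩
  · intro s t c d z hst hm hc hcd hs ht hwc hwd
    obtain ⟨x, hx, rfl⟩ := hex c hc
    -- lift the path
    have hlp : ∀ d, ReflTransGen (fun a b => A₀ s a b ∨ A₀ t a b) (pr x) d →
        ∃ y, pr y = d ∧ ReflTransGen (fun a b => BD s a b ∨ BD t a b) x y := by
      intro d h
      induction h with
      | refl => exact ⟨x, rfl, ReflTransGen.refl⟩
      | tail _ h2 ih =>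
        obtain ⟨y, rfl, h3⟩ := ih
        rcases h2 with h2 | h2
        · obtain ⟨y', h4, h5⟩ := hlift s y _ h2
          exact ⟨y', h4, h3.tail (Or.inl h5)⟩
        · obtain ⟨y', h4, h5⟩ := hlift t y _ h2
          exact ⟨y', h4, h3.tail (Or.inr h5)⟩
    obtain ⟨y, rfl, hxy⟩ := hlp d hcd
    have hy : ReflTransGen (fun a b => ∃ s, BD s a b) x₀ y := by
      refine hx.trans ?_
      refine ReflTransGen.mono ?_ _ _ hxy
      rintro a b (h | h)
      · exact ⟨s, h⟩
      · exact ⟨t, h⟩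
    rw [hw x hx] at hwc
    rw [hw y hy] at hwd
    exact hadj t x y (bd_of_wD hC hA hG hP hst hm hxy hs ht hwc hwd)

end

/-- **The projection.** -/
theorem exists_w' {S C : Type} {M : CoxeterMatrix S} {A : S → C → C → Prop} (hC : CoxF M)
    (hI : AscInf M) (hA : ∀ s, Equivalence (A s)) (hG : Gir M A) (hS : SCh M A) (c₀ : C) :
    ∃ w, WL M A w ∧ WG M A w ∧ w c₀ = 1 := by
  classical
  obtain ⟨C', A', ι, hι, hA', hιA, hG', hP'⟩ := completion M A hA hG
  let cs : Setoid C := ⟨fun a b => ReflTransGen (fun a b => ∃ s, A s a b) a b,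
    fun _ => ReflTransGen.refl, fun {x y} h => by
      induction h with
      | refl => exact ReflTransGen.refl
      | tail _ h2 ih =>
        obtain ⟨s, h2⟩ := h2
        exact ih.head ⟨s, (hA s).symm h2⟩, fun h h' => h.trans h'⟩
  choose w hw1 hw hw2 using fun v₀ : C => exists_loc' (A₀ := A) hC hA' hG' hP' hι hιA hS v₀
  -- the base points of the components
  let r : C → C := fun c => if Quotient.mk cs c = Quotient.mk cs c₀ then c₀ else
    (Quotient.mk cs c).out
  have hr1 : ∀ c d, Quotient.mk cs c = Quotient.mk cs d → r c = r d := by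
    intro c d h
    simp only [r, h]
  have hr2 : ∀ c, ReflTransGen (fun a b => ∃ s, A s a b) (r c) c := by
    intro c
    by_cases h : Quotient.mk cs c = Quotient.mk cs c₀
    · have h1 : r c = c₀ := if_pos h
      rw [h1]
      exact Quotient.exact (s := cs) h.symm
    · have h1 : r c = (Quotient.mk cs c).out := if_neg h
      rw [h1]
      exact Quotient.exact (s := cs) (Quotient.out_eq _)
  have hWL : WL M A fun c => w (r c) c := by
    intro s c d hcd hne
    have h1 : r c = r d := hr1 c d (Quotient.sound (s := cs) (ReflTransGen.single ⟨s, hcd⟩))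
    simp only [← h1]
    exact hw _ s c d (hr2 c) hcd hne
  refine ⟨fun c => w (r c) c, hWL, ?_, ?_⟩
  · intro s t c d z hst h hs ht hc hd
    by_cases hm : M s t = 0
    · exact wg_inf hI hWL hA hst hm h hs ht hc hd
    · have h1 : r c = r d := by
        refine hr1 c d (Quotient.sound (s := cs) ?_)
        refine ReflTransGen.mono ?_ _ _ h
        rintro a b (h | h)
        · exact ⟨s, h⟩
        · exact ⟨t, h⟩
      simp only [← h1] at hd
      exact hw2 _ s t c d z hst hm (hr2 c) h hs ht hc hd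
  · have h1 : r c₀ = c₀ := if_pos rfl
    simp only [h1]
    exact hw1 c₀

end Pool.Agent.Helper9.EV
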